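import Mathlib

set_option autoImplicit false

/-!
Variation of a functional on `C(K)`: every continuous linear functional on `C(K, ℝ)`, `K` compact
Hausdorff, is dominated by a finite positive (regular Borel) measure; consequences: bounded
pointwise null sequences are weakly null, and a dominated convergence form.
-/

open MeasureTheory NNReal Set CompactlySupported Filter Topology Pointwise

set_option linter.unusedSectionVars false

namespace Pool.Agent.Work.MP_052a41_h94

section VAR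

variable {K : Type*} [TopologicalSpace K] [CompactSpace K]

/-- Values of `φ` on continuous functions dominated by `f`. -/
def vset (φ : C(K, ℝ) →L[ℝ] ℝ) (f : C_c(K, ℝ≥0)) : Set ℝ :=
  {y | ∃ g : C(K, ℝ), (∀ x, |g x| ≤ (f x : ℝ)) ∧ φ g = y}

lemma vset_zero_mem (φ : C(K, ℝ) →L[ℝ] ℝ) (f : C_c(K, ℝ≥0)) : (0 : ℝ) ∈ vset φ f :=
  ⟨0, fun x => by simp, by simp⟩

lemma vset_bdd (φ : C(K, ℝ) →L[ℝ] ℝ) (f : C_c(K, ℝ≥0)) : BddAbove (vset φ f) := by
  obtain ⟨C, hC⟩ := (isCompact_range (f.continuous_toFun)).bddAbove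
  refine ⟨‖φ‖ * C, ?_⟩
  rintro y ⟨g, hg, rfl⟩
  calc φ g ≤ |φ g| := le_abs_self _
    _ ≤ ‖φ‖ * ‖g‖ := φ.le_opNorm g
    _ ≤ ‖φ‖ * C := by
        refine mul_le_mul_of_nonneg_left ?_ (norm_nonneg φ)
        refine (ContinuousMap.norm_le g C.coe_nonneg).2 fun x => ?_
        rw [Real.norm_eq_abs]
        refine (hg x).trans ?_
        exact_mod_cast hC (mem_range_self x)

lemma vset_add (φ : C(K, ℝ) →L[ℝ] ℝ) (f₁ f₂ : C_c(K, ℝ≥0)) :
    vset φ (f₁ + f₂) = vset φ f₁ + vset φ f₂ := by
  ext y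
  constructor
  · rintro ⟨g, hg, rfl⟩
    have hc1 : Continuous (fun x => ((f₁ x : ℝ≥0) : ℝ)) :=
      NNReal.continuous_coe.comp f₁.continuous_toFun
    let g1 : C(K, ℝ) := ⟨fun x => max (-(f₁ x : ℝ)) (min (g x) (f₁ x)), by
      exact (hc1.neg).max (g.continuous.min hc1)⟩
    have h1 : ∀ x, |g1 x| ≤ (f₁ x : ℝ) := by
      intro x
      have h0 : (0 : ℝ) ≤ f₁ x := (f₁ x).coe_nonneg
      show |max (-(f₁ x : ℝ)) (min (g x) (f₁ x))| ≤ _
      rw [abs_le]
      exact ⟨le_max_left _ _, max_le (by linarith) (min_le_right _ _)⟩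
    have h2 : ∀ x, |(g - g1) x| ≤ (f₂ x : ℝ) := by
      intro x
      have h0 : (0 : ℝ) ≤ f₁ x := (f₁ x).coe_nonneg
      have h0' : (0 : ℝ) ≤ f₂ x := (f₂ x).coe_nonneg
      have h3 := hg x
      rw [CompactlySupportedContinuousMap.add_apply] at h3
      push_cast at h3
      rw [abs_le] at h3
      show |g x - max (-(f₁ x : ℝ)) (min (g x) (f₁ x))| ≤ _
      rw [abs_le]
      rcases le_total (g x) (f₁ x) with h | h
      · rw [min_eq_left h]
        rcases le_total (-(f₁ x : ℝ)) (g x) with h' | h'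
        · rw [max_eq_right h']; constructor <;> linarith
        · rw [max_eq_left h']; constructor <;> linarith [h3.1]
      · rw [min_eq_right h, max_eq_right (by linarith)]
        constructor <;> linarith [h3.2]
    exact ⟨φ g1, ⟨g1, h1, rfl⟩, φ (g - g1), ⟨g - g1, h2, rfl⟩, by
      rw [map_sub]; ring⟩
  · rintro ⟨y1, ⟨g1, h1, rfl⟩, y2, ⟨g2, h2, rfl⟩, rfl⟩
    refine ⟨g1 + g2, fun x => ?_, by rw [map_add]⟩
    rw [CompactlySupportedContinuousMap.add_apply]
    push_cast
    exact (abs_add_le _ _).trans (add_le_add (h1 x) (h2 x))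

lemma vset_smul (φ : C(K, ℝ) →L[ℝ] ℝ) (c : ℝ≥0) (f : C_c(K, ℝ≥0)) :
    vset φ (c • f) = (c : ℝ) • vset φ f := by
  rcases eq_or_ne c 0 with rfl | hc
  · ext y
    constructor
    · rintro ⟨g, hg, rfl⟩
      have : g = 0 := by
        ext x
        have := hg x
        simp at this
        simpa using this
      subst this
      exact ⟨0, vset_zero_mem φ f, by simp⟩
    · rintro ⟨y, hy, rfl⟩
      exact ⟨0, by simp, by simp⟩
  · have hc' : (0 : ℝ) < c := by
      have := pos_iff_ne_zero.2 hc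
      exact_mod_cast this
    ext y
    constructor
    · rintro ⟨g, hg, rfl⟩
      refine ⟨φ ((c : ℝ)⁻¹ • g), ⟨(c : ℝ)⁻¹ • g, fun x => ?_, rfl⟩, ?_⟩
      · have h := hg x
        rw [CompactlySupportedContinuousMap.smul_apply] at h
        simp only [smul_eq_mul, NNReal.coe_mul] at h
        rw [ContinuousMap.smul_apply, smul_eq_mul, abs_mul, abs_of_pos (inv_pos.2 hc')]
        rw [inv_mul_le_iff₀ hc']
        exact h
      · simp only [map_smul, smul_eq_mul]
        field_simp
    · rintro ⟨y, ⟨g, hg, rfl⟩, rfl⟩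
      refine ⟨(c : ℝ) • g, fun x => ?_, by simp⟩
      rw [CompactlySupportedContinuousMap.smul_apply]
      simp only [smul_eq_mul, NNReal.coe_mul]
      rw [ContinuousMap.smul_apply, smul_eq_mul, abs_mul, abs_of_pos hc']
      exact mul_le_mul_of_nonneg_left (hg x) hc'.le

/-- The variation functional. -/
noncomputable def vlin (φ : C(K, ℝ) →L[ℝ] ℝ) : C_c(K, ℝ≥0) →ₗ[ℝ≥0] ℝ≥0 where
  toFun f := ⟨sSup (vset φ f), le_csSup (vset_bdd φ f) (vset_zero_mem φ f)⟩
  map_add' f₁ f₂ := by
    apply NNReal.eq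
    show sSup (vset φ (f₁ + f₂)) = sSup (vset φ f₁) + sSup (vset φ f₂)
    rw [vset_add, csSup_add ⟨0, vset_zero_mem φ f₁⟩ (vset_bdd φ f₁) ⟨0, vset_zero_mem φ f₂⟩
      (vset_bdd φ f₂)]
  map_smul' c f := by
    apply NNReal.eq
    show sSup (vset φ (c • f)) = (c : ℝ) * sSup (vset φ f)
    rw [vset_smul, Real.sSup_smul_of_nonneg c.coe_nonneg, smul_eq_mul]

/-- `|g|` as a compactly supported continuous function. -/
noncomputable def cabs (g : C(K, ℝ)) : C_c(K, ℝ≥0) :=
  CompactlySupportedContinuousMap.continuousMapEquiv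
    ⟨fun x => Real.toNNReal |g x|, by
      exact continuous_real_toNNReal.comp g.continuous.abs⟩

lemma cabs_apply (g : C(K, ℝ)) (x : K) : ((cabs g x : ℝ≥0) : ℝ) = |g x| := by
  show ((Real.toNNReal |g x| : ℝ≥0) : ℝ) = |g x|
  exact Real.coe_toNNReal _ (abs_nonneg _)

variable [T2Space K] [MeasurableSpace K] [BorelSpace K]

/-- Every continuous functional on `C(K)` is dominated by a finite positive measure. -/
theorem exists_dominating_measure (φ : C(K, ℝ) →L[ℝ] ℝ) :
    ∃ μ : Measure K, IsFiniteMeasure μ ∧ μ.Regular ∧ ∀ g : C(K, ℝ), |φ g| ≤ ∫ x, |g x| ∂μ := by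
  refine ⟨NNRealRMK.rieszMeasure (vlin φ), ?_, inferInstance, ?_⟩
  · infer_instance
  · have key : ∀ g : C(K, ℝ), φ g ≤ ∫ x, |g x| ∂(NNRealRMK.rieszMeasure (vlin φ)) := by
      intro g
      have h1 := NNRealRMK.integral_rieszMeasure (vlin φ) (cabs g)
      simp only [cabs_apply] at h1
      rw [h1]
      exact le_csSup (vset_bdd φ (cabs g)) ⟨g, fun x => by rw [cabs_apply], rfl⟩
    intro g
    rw [abs_le]
    constructor
    · have := key (-g)
      simp only [map_neg, ContinuousMap.neg_apply, abs_neg] at this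
      linarith
    · exact key g

/-- Bounded pointwise null sequences of continuous functions are weakly null. -/
theorem weak_null (φ : C(K, ℝ) →L[ℝ] ℝ) (D : ℕ → C(K, ℝ)) (C : ℝ) (hC : ∀ n x, |D n x| ≤ C)
    (h0 : ∀ x, Tendsto (fun n => D n x) atTop (𝓝 0)) :
    Tendsto (fun n => φ (D n)) atTop (𝓝 0) := by
  obtain ⟨μ, hμ, -, hφ⟩ := exists_dominating_measure φ
  have h1 : Tendsto (fun n => ∫ x, |D n x| ∂μ) atTop (𝓝 (∫ _x, (0 : ℝ) ∂μ)) := by
    refine tendsto_integral_of_dominated_convergence (fun _ => C) ?_ ?_ ?_ ?_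
    · intro n
      exact ((D n).continuous.abs).aestronglyMeasurable
    · exact integrable_const _
    · intro n
      exact Eventually.of_forall fun x => by simpa using hC n x
    · refine Eventually.of_forall fun x => ?_
      have := (h0 x).abs
      simpa using this
  rw [integral_zero] at h1
  exact squeeze_zero_norm (fun n => by rw [Real.norm_eq_abs]; exact hφ (D n)) h1

end VAR

end Pool.Agent.Work.MP_052a41_h94
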